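import Pool.Agent.Lib.MP_b30f32_co.RankTwo

/-! MP_b30f32_co: the counterexamples `J + t w w^*`, `w = (0, 1, ω, …, ω^(m-1))`, and their positive
definite perturbations. -/

set_option autoImplicit false

open Matrix Finset
open scoped ComplexOrder

set_option linter.unusedSectionVars false

namespace Pool.Agent.Lib.MP_b30f32_co

/-- For a complex matrix `A` of size `n + 1` (rows and columns `0, 1, ..., n`):
`x = a₀₀ · per B` with `B` the matrix `A` without row and column `0`,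
`y = ∑_{k = 1}^{n} |a₀ₖ|² · per B_kk` with `B_kk` the matrix `A` without the rows and columns `0, k`,
`z = per A`, all three of them real. -/
def Vals {n : ℕ} (A : Matrix (Fin (n + 1)) (Fin (n + 1)) ℂ) (x y z : ℝ) : Prop :=
  A 0 0 * (A.submatrix Fin.succ Fin.succ).permanent = (x : ℂ) ∧
  ∑ k : Fin n, (‖A 0 k.succ‖ : ℂ) ^ 2 *
      (A.submatrix (fun j : {j : Fin (n + 1) // j ≠ 0 ∧ j ≠ k.succ} => (j : Fin (n + 1)))
        (fun j : {j : Fin (n + 1) // j ≠ 0 ∧ j ≠ k.succ} => (j : Fin (n + 1)))).permanent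
      = (y : ℂ) ∧
  A.permanent = (z : ℂ)

section herm

variable {n : ℕ}

noncomputable def X0 (A : Matrix (Fin (n + 1)) (Fin (n + 1)) ℂ) : ℝ :=
  (A 0 0 * (A.submatrix Fin.succ Fin.succ).permanent).re

noncomputable def Y0 (A : Matrix (Fin (n + 1)) (Fin (n + 1)) ℂ) : ℝ :=
  (∑ k : Fin n, (‖A 0 k.succ‖ : ℂ) ^ 2 *
      (A.submatrix (fun j : {j : Fin (n + 1) // j ≠ 0 ∧ j ≠ k.succ} => (j : Fin (n + 1)))
        (fun j : {j : Fin (n + 1) // j ≠ 0 ∧ j ≠ k.succ} => (j : Fin (n + 1)))).permanent).re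

noncomputable def Z0 (A : Matrix (Fin (n + 1)) (Fin (n + 1)) ℂ) : ℝ := A.permanent.re

lemma vals_herm {A : Matrix (Fin (n + 1)) (Fin (n + 1)) ℂ} (hA : A.IsHermitian) :
    Vals A (X0 A) (Y0 A) (Z0 A) := by
  have h0 : A 0 0 = ((A 0 0).re : ℂ) := by
    have := hA.apply 0 0
    exact (Complex.conj_eq_iff_re.1 this).symm
  refine ⟨?_, ?_, ?_⟩
  · unfold X0
    rw [h0, per_herm (hA.submatrix Fin.succ), ← Complex.ofReal_mul, Complex.ofReal_re]
  · unfold Y0
    have h1 : ∀ k : Fin n, (‖A 0 k.succ‖ : ℂ) ^ 2 *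
      (A.submatrix (fun j : {j : Fin (n + 1) // j ≠ 0 ∧ j ≠ k.succ} => (j : Fin (n + 1)))
        (fun j : {j : Fin (n + 1) // j ≠ 0 ∧ j ≠ k.succ} => (j : Fin (n + 1)))).permanent
      = ((‖A 0 k.succ‖ ^ 2 * (A.submatrix (fun j : {j : Fin (n + 1) // j ≠ 0 ∧ j ≠ k.succ} => (j : Fin (n + 1)))
        (fun j : {j : Fin (n + 1) // j ≠ 0 ∧ j ≠ k.succ} => (j : Fin (n + 1)))).permanent.re : ℝ) : ℂ) := by
      intro k
      conv_lhs => rw [per_herm (hA.submatrix _)]
      push_cast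
      rfl
    simp only [h1]
    rw [← Complex.ofReal_sum, Complex.ofReal_re]
  · exact per_herm hA

lemma cont_per {ι : Type*} [Fintype ι] [DecidableEq ι] {f : ℝ → Matrix ι ι ℂ}
    (hf : ∀ i j, Continuous fun ε => f ε i j) : Continuous fun ε => (f ε).permanent := by
  unfold Matrix.permanent
  exact continuous_finsetSum _ fun σ _ => continuous_finsetProd _ fun i _ => hf _ _

lemma perturb {A : Matrix (Fin (n + 1)) (Fin (n + 1)) ℂ} (hA : A.PosSemidef) {x y z : ℝ}
    (hv : Vals A x y z) {c : ℝ} (hz : 0 < z) (h : c * z ^ 2 < x ^ 2 + y ^ 2) :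
    ∃ A' : Matrix (Fin (n + 1)) (Fin (n + 1)) ℂ, A'.PosDef ∧ ∃ x' y' z' : ℝ,
      Vals A' x' y' z' ∧ 0 < z' ∧ c * z' ^ 2 < x' ^ 2 + y' ^ 2 := by
  set f : ℝ → Matrix (Fin (n + 1)) (Fin (n + 1)) ℂ := fun ε => A + (ε : ℂ) • 1 with hf
  have hfc : ∀ i j, Continuous fun ε => f ε i j := by
    intro i j
    simp only [hf, Matrix.add_apply, Matrix.smul_apply, smul_eq_mul]
    fun_prop
  have hX : Continuous fun ε => X0 (f ε) :=
    Complex.continuous_re.comp ((hfc 0 0).mul (cont_per fun i j => hfc _ _))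
  have hY : Continuous fun ε => Y0 (f ε) := by
    refine Complex.continuous_re.comp (continuous_finsetSum _ fun k _ => ?_)
    exact ((Complex.continuous_ofReal.comp (continuous_norm.comp (hfc _ _))).pow 2).mul
      (cont_per fun i j => hfc _ _)
  have hZ : Continuous fun ε => Z0 (f ε) := Complex.continuous_re.comp (cont_per hfc)
  have hf0 : f 0 = A := by simp [hf]
  have hx : X0 A = x := by unfold X0; rw [hv.1, Complex.ofReal_re]
  have hy : Y0 A = y := by unfold Y0; rw [hv.2.1, Complex.ofReal_re]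
  have hz0 : Z0 A = z := by unfold Z0; rw [hv.2.2, Complex.ofReal_re]
  have h1 : ∀ᶠ ε in nhds (0 : ℝ), 0 < Z0 (f ε) := by
    refine continuous_const.continuousAt.eventually_lt hZ.continuousAt ?_
    rw [hf0, hz0]
    exact hz
  have h2 : ∀ᶠ ε in nhds (0 : ℝ), c * Z0 (f ε) ^ 2 < X0 (f ε) ^ 2 + Y0 (f ε) ^ 2 := by
    have hL : Continuous fun ε => c * Z0 (f ε) ^ 2 := continuous_const.mul (hZ.pow 2)
    have hR : Continuous fun ε => X0 (f ε) ^ 2 + Y0 (f ε) ^ 2 := (hX.pow 2).add (hY.pow 2)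
    refine hL.continuousAt.eventually_lt hR.continuousAt ?_
    rw [hf0, hx, hy, hz0]
    exact h
  obtain ⟨δ, hδ, hB⟩ := Metric.eventually_nhds_iff.1 (h1.and h2)
  have hd : dist (δ / 2) 0 < δ := by
    rw [Real.dist_eq, sub_zero, abs_of_pos (by linarith)]
    linarith
  have hPD : (f (δ / 2)).PosDef := by
    refine Matrix.PosDef.posSemidef_add hA ?_
    refine Matrix.PosDef.one.smul ?_
    exact_mod_cast (by linarith : 0 < δ / 2)
  exact ⟨f (δ / 2), hPD, _, _, _, vals_herm hPD.isHermitian, (hB hd).1, (hB hd).2⟩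

end herm

section fam

lemma sum_two {m : ℕ} (hm : 1 ≤ m) (f : ℕ → ℝ) (h : ∀ k, 0 < k → k < m → f k = 0) :
    ∑ k ∈ range (m + 1), f k = f 0 + f m := by
  obtain ⟨m, rfl⟩ : ∃ l, m = l + 1 := ⟨m - 1, by omega⟩
  rw [sum_range_succ, sum_range_succ']
  rw [sum_eq_zero fun k hk => h (k + 1) (by omega) (by rw [mem_range] at hk; omega), zero_add]

/-- a primitive root of unity -/
noncomputable def om (m : ℕ) : ℂ := Complex.exp (2 * Real.pi * Complex.I / m)

lemma om_prim {m : ℕ} (hm : m ≠ 0) : IsPrimitiveRoot (om m) m := Complex.isPrimitiveRoot_exp m hm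

/-- the roots of unity -/
noncomputable def wr (m : ℕ) : Fin m → ℂ := fun j => om m ^ (j : ℕ)

/-- zero and the roots of unity -/
noncomputable def w0 (m : ℕ) : Fin (m + 1) → ℂ := Fin.cons 0 (wr m)

lemma norm_om {m : ℕ} (hm : m ≠ 0) : ‖om m‖ = 1 := (om_prim hm).norm'_eq_one hm

lemma norm_wr {m : ℕ} (hm : m ≠ 0) (j : Fin m) : ‖wr m j‖ = 1 := by
  unfold wr
  rw [norm_pow, norm_om hm, one_pow]

lemma wr_rot {m : ℕ} (j : Fin (m + 1)) : wr (m + 1) (finRotate (m + 1) j)
    = om (m + 1) * wr (m + 1) j := by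
  unfold wr
  rw [coe_finRotate]
  split_ifs with h
  · subst h
    rw [pow_zero, Fin.val_last, ← pow_succ', (om_prim (Nat.succ_ne_zero m)).pow_eq_one]
  · rw [pow_succ']

lemma es_wr {m k : ℕ} (h0 : 0 < k) (hk : k < m) : es (wr m) k = 0 := by
  obtain ⟨m, rfl⟩ : ∃ l, m = l + 1 := ⟨m - 1, by omega⟩
  refine es_rot (c := om (m + 1)) (σ := finRotate (m + 1)) wr_rot ?_
  intro h
  have := (om_prim (Nat.succ_ne_zero m)).pow_ne_one_of_pos_of_lt h0.ne' hk
  exact this h

lemma es_w0 {m k : ℕ} (h0 : 0 < k) (hk : k < m) : es (w0 m) k = 0 := by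
  obtain ⟨m, rfl⟩ : ∃ l, m = l + 1 := ⟨m - 1, by omega⟩
  refine es_rot (c := om (m + 1)) (σ := Equiv.Perm.decomposeFin.symm (0, finRotate (m + 1))) ?_ ?_
  · intro i
    refine Fin.cases ?_ (fun j => ?_) i
    · rw [Equiv.Perm.decomposeFin_symm_apply_zero]
      simp [w0]
    · rw [Equiv.Perm.decomposeFin_symm_apply_succ]
      simp only [Equiv.swap_self, Equiv.refl_apply]
      unfold w0
      rw [Fin.cons_succ, Fin.cons_succ]
      exact wr_rot j
  · exact (om_prim (Nat.succ_ne_zero m)).pow_ne_one_of_pos_of_lt h0.ne' hk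

lemma es_card {ι : Type*} [Fintype ι] [DecidableEq ι] (w : ι → ℂ) {m : ℕ}
    (hm : Fintype.card ι = m) : es w m = ∏ i, w i := by
  unfold es
  rw [← hm, ← card_univ, powersetCard_self, sum_singleton]

lemma norm_es_card {ι : Type*} [Fintype ι] [DecidableEq ι] (w : ι → ℂ) {m : ℕ}
    (hm : Fintype.card ι = m) (hw : ∀ i, ‖w i‖ = 1) : ‖es w m‖ = 1 := by
  rw [es_card w hm, norm_prod]
  exact prod_eq_one fun i _ => hw i

lemma norm_es_w0 {m : ℕ} (hm : m ≠ 0) : ‖es (w0 m) m‖ = 1 := by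
  have h1 : es (w0 m) m = ∏ i ∈ univ.erase (0 : Fin (m + 1)), w0 m i := by
    unfold es
    refine sum_eq_single (univ.erase (0 : Fin (m + 1))) ?_ ?_
    · intro S hS hne
      rw [mem_powersetCard] at hS
      by_cases h0 : (0 : Fin (m + 1)) ∈ S
      · exact prod_eq_zero h0 (by simp [w0])
      · exfalso
        apply hne
        refine eq_of_subset_of_card_le ?_ ?_
        · intro x hx
          rw [mem_erase]
          exact ⟨fun h => h0 (h ▸ hx), mem_univ _⟩
        · rw [card_erase_of_mem (mem_univ _), card_univ, Fintype.card_fin, hS.2]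
          omega
    · intro h
      exfalso
      apply h
      rw [mem_powersetCard]
      refine ⟨subset_univ _, ?_⟩
      rw [card_erase_of_mem (mem_univ _), card_univ, Fintype.card_fin]
      omega
  rw [h1, norm_prod]
  refine prod_eq_one fun i hi => ?_
  rw [mem_erase] at hi
  obtain ⟨j, rfl⟩ := Fin.exists_succ_eq.2 hi.1
  unfold w0
  rw [Fin.cons_succ]
  exact norm_wr hm j

lemma fam {m : ℕ} (hm : 1 ≤ m) {t : ℝ} (ht : 0 ≤ t) : ∃ y : ℝ,
    (m.factorial : ℝ) * t ^ (m - 1) ≤ y ∧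
    Vals (rk2 t (w0 m)) (m.factorial * (1 + t ^ m)) y (m.factorial * (m + 1 + t ^ m)) := by
  have hm0 : m ≠ 0 := by omega
  have h00 : rk2 t (w0 m) 0 0 = 1 := by simp [rk2, w0]
  have h0k : ∀ k : Fin m, rk2 t (w0 m) 0 k.succ = 1 := by
    intro k
    simp [rk2, w0]
  have hB : (rk2 t (w0 m)).submatrix Fin.succ Fin.succ = rk2 t (wr m) := by
    ext i j
    simp [rk2, w0]
  have hBk : ∀ k : Fin m, (rk2 t (w0 m)).submatrix
      (fun j : {j : Fin (m + 1) // j ≠ 0 ∧ j ≠ k.succ} => (j : Fin (m + 1)))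
      (fun j : {j : Fin (m + 1) // j ≠ 0 ∧ j ≠ k.succ} => (j : Fin (m + 1)))
      = rk2 t (fun j : {j : Fin (m + 1) // j ≠ 0 ∧ j ≠ k.succ} => w0 m j) := by
    intro k
    ext i j
    simp [rk2]
  have hcard : ∀ k : Fin m, Fintype.card {j : Fin (m + 1) // j ≠ 0 ∧ j ≠ k.succ} = m - 1 := by
    intro k
    rw [Fintype.card_subtype]
    have : (univ.filter fun j : Fin (m + 1) => j ≠ 0 ∧ j ≠ k.succ)
        = (univ.erase 0).erase k.succ := by
      ext j
      simp only [mem_filter, mem_univ, true_and, mem_erase, and_true]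
      tauto
    rw [this, card_erase_of_mem, card_erase_of_mem (mem_univ _), card_univ, Fintype.card_fin]
    · omega
    · rw [mem_erase]
      exact ⟨Fin.succ_ne_zero k, mem_univ _⟩
  have hyk : ∀ k : Fin m, ∃ r : ℝ, ((m - 1).factorial : ℝ) * t ^ (m - 1) ≤ r ∧
      ((rk2 t (w0 m)).submatrix
      (fun j : {j : Fin (m + 1) // j ≠ 0 ∧ j ≠ k.succ} => (j : Fin (m + 1)))
      (fun j : {j : Fin (m + 1) // j ≠ 0 ∧ j ≠ k.succ} => (j : Fin (m + 1)))).permanent
      = (r : ℂ) := by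
    intro k
    refine ⟨_, ?_, by rw [hBk k]; exact per_rk2 t _⟩
    rw [hcard k]
    refine le_trans (le_of_eq ?_) (single_le_sum (f := fun l : ℕ => t ^ l *
      ((l.factorial * (m - 1 - l).factorial : ℕ) : ℝ) *
      ‖es (fun j : {j : Fin (m + 1) // j ≠ 0 ∧ j ≠ k.succ} => w0 m j) l‖ ^ 2)
      (fun l _ => by positivity) (mem_range.2 (Nat.lt_succ_self (m - 1))))
    rw [norm_es_card _ (hcard k), Nat.sub_self, Nat.factorial_zero, mul_one, one_pow, mul_one,
      mul_comm]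
    rintro ⟨j, hj0, hjk⟩
    obtain ⟨i, rfl⟩ := Fin.exists_succ_eq.2 hj0
    unfold w0
    simp only [Fin.cons_succ]
    exact norm_wr hm0 i
  choose r hr1 hr2 using hyk
  refine ⟨∑ k, r k, ?_, ?_, ?_, ?_⟩
  · calc (m.factorial : ℝ) * t ^ (m - 1) = ∑ _k : Fin m, ((m - 1).factorial : ℝ) * t ^ (m - 1) := by
          rw [sum_const, card_univ, Fintype.card_fin, nsmul_eq_mul, ← mul_assoc]
          congr 1
          rw [← Nat.cast_mul, Nat.mul_factorial_pred hm0]
      _ ≤ ∑ k, r k := sum_le_sum fun k _ => hr1 k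
  · rw [h00, hB, one_mul, per_rk2, Fintype.card_fin, sum_two hm]
    · rw [es_zero, norm_es_card _ (Fintype.card_fin m) (norm_wr hm0), Nat.sub_self]
      simp
      ring
    · intro k h0 hk
      rw [es_wr h0 hk]
      simp
  · push_cast
    refine sum_congr rfl fun k _ => ?_
    rw [h0k k, hr2 k]
    simp
  · rw [per_rk2, Fintype.card_fin, sum_range_succ, es_card _ (Fintype.card_fin (m + 1)),
      prod_eq_zero (mem_univ (0 : Fin (m + 1))) (by simp [w0] : w0 m 0 = 0), sum_two hm]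
    · rw [es_zero, norm_es_w0 hm0]
      have : m + 1 - m = 1 := by omega
      rw [this]
      simp [Nat.factorial_succ]
      ring
    · intro k h0 hk
      rw [es_w0 h0 hk]
      simp

end fam

end Pool.Agent.Lib.MP_b30f32_co
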