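import Pool.Agent.Lib.MP_b30f32_co.Small

/-! MP_b30f32_co: failure from size `4` on, and the constant `2`. -/

set_option autoImplicit false

open Matrix Finset
open scoped ComplexOrder

namespace Pool.Agent.Lib.MP_b30f32_co

lemma large (m : ℕ) (hm : 3 ≤ m) : ∃ A : Matrix (Fin (m + 1)) (Fin (m + 1)) ℂ, A.PosDef ∧
      ∃ x y z : ℝ, Vals A x y z ∧ 0 < z ∧ 1 * z ^ 2 < x ^ 2 + y ^ 2 := by
  obtain ⟨t, ht⟩ : ∃ t : ℝ, t = 2 * m + 2 := ⟨_, rfl⟩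
  have hm' : (3 : ℝ) ≤ m := by exact_mod_cast hm
  have ht0 : 0 < t := by rw [ht]; positivity
  have ht1 : 1 ≤ t := by rw [ht]; linarith
  obtain ⟨y, hy, hv⟩ := fam (m := m) (by omega) ht0.le
  obtain ⟨M, hM⟩ : ∃ M : ℝ, M = (m.factorial : ℝ) := ⟨_, rfl⟩
  have hM0 : 0 < M := by rw [hM]; exact_mod_cast m.factorial_pos
  rw [← hM] at hy hv
  refine perturb (psd_rk2 ht0.le (w0 m)) hv (by positivity) ?_
  obtain ⟨T, hT⟩ : ∃ T : ℝ, T = t ^ m := ⟨_, rfl⟩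
  have hT2 : t ^ 2 ≤ T := by rw [hT]; exact pow_le_pow_right₀ ht1 (by omega)
  have hU : t * T ≤ (t ^ (m - 1)) ^ 2 := by
    rw [hT, ← pow_succ', ← pow_mul]
    exact pow_le_pow_right₀ ht1 (by omega)
  have h1 : (m + 1 + T) ^ 2 < (1 + T) ^ 2 + t * T := by
    rw [ht] at hT2 ⊢
    nlinarith
  have h2 : (M * t ^ (m - 1)) ^ 2 ≤ y ^ 2 := pow_le_pow_left₀ (by positivity) hy 2
  rw [← hT]
  have h3 : M ^ 2 * (m + 1 + T) ^ 2 < M ^ 2 * ((1 + T) ^ 2 + (t ^ (m - 1)) ^ 2) :=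
    mul_lt_mul_of_pos_left (by linarith) (by positivity)
  nlinarith

lemma asym {c : ℝ} (hc : c < 2) : ∃ N : ℕ, ∀ m : ℕ, N ≤ m →
    ∃ A : Matrix (Fin (m + 1)) (Fin (m + 1)) ℂ, A.PosDef ∧
      ∃ x y z : ℝ, Vals A x y z ∧ 0 < z ∧ c * z ^ 2 < x ^ 2 + y ^ 2 := by
  obtain ⟨t, ht1, htc⟩ : ∃ t : ℝ, 1 < t ∧ c < 1 + (1 / t) ^ 2 := by
    refine ⟨1 + (2 - c) / 4, by linarith, ?_⟩
    have h0 : 0 < 1 + (2 - c) / 4 := by linarith
    rw [div_pow, one_pow, ← sub_lt_iff_lt_add', lt_div_iff₀ (by positivity)]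
    rcases le_or_gt c 1 with h | h
    · nlinarith [sq_nonneg (1 + (2 - c) / 4)]
    · have h1 : (1 + (2 - c) / 4) ^ 2 ≤ 1 + (2 - c) := by nlinarith
      have h2 : (c - 1) * (1 + (2 - c) / 4) ^ 2 ≤ (c - 1) * (1 + (2 - c)) :=
        mul_le_mul_of_nonneg_left h1 (by linarith)
      have h3 : 0 < (2 - c) ^ 2 := by
        have : 0 < 2 - c := by linarith
        positivity
      nlinarith
  have ht0 : 0 < t := by linarith
  have hl1 : Filter.Tendsto (fun m : ℕ => ((m : ℝ) ^ 1 / t ^ m + 1 / t ^ m)) Filter.atTop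
      (nhds (0 + 0)) := by
    refine (tendsto_pow_const_div_const_pow_of_one_lt 1 ht1).add ?_
    have := tendsto_pow_const_div_const_pow_of_one_lt 0 ht1
    simpa using this
  have hl2 : Filter.Tendsto (fun m : ℕ => (1 / t ^ m : ℝ)) Filter.atTop (nhds 0) := by
    have := tendsto_pow_const_div_const_pow_of_one_lt 0 ht1
    simpa using this
  have hL : Filter.Tendsto (fun m : ℕ => c * (((m : ℝ) ^ 1 / t ^ m + 1 / t ^ m) + 1) ^ 2)
      Filter.atTop (nhds (c * ((0 + 0) + 1) ^ 2)) :=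
    ((hl1.add tendsto_const_nhds).pow 2).const_mul c
  have hR : Filter.Tendsto (fun m : ℕ => ((1 / t ^ m : ℝ) + 1) ^ 2 + (1 / t) ^ 2)
      Filter.atTop (nhds ((0 + 1) ^ 2 + (1 / t) ^ 2)) :=
    ((hl2.add tendsto_const_nhds).pow 2).add tendsto_const_nhds
  have hev := (hL.eventually_lt hR (by norm_num; simpa using htc)).and
    (Filter.eventually_ge_atTop 1)
  obtain ⟨N, hN⟩ := Filter.eventually_atTop.1 hev
  refine ⟨N, fun m hm => ?_⟩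
  obtain ⟨h1, hm1⟩ := hN m hm
  obtain ⟨y, hy, hv⟩ := fam (m := m) hm1 ht0.le
  obtain ⟨M, hM⟩ : ∃ M : ℝ, M = (m.factorial : ℝ) := ⟨_, rfl⟩
  have hM0 : 0 < M := by rw [hM]; exact_mod_cast m.factorial_pos
  rw [← hM] at hy hv
  refine perturb (psd_rk2 ht0.le (w0 m)) hv (by positivity) ?_
  obtain ⟨T, hT⟩ : ∃ T : ℝ, T = t ^ m := ⟨_, rfl⟩
  have hT0 : 0 < T := by rw [hT]; positivity
  have hU : t ^ (m - 1) = T * (1 / t) := by
    rw [hT, mul_one_div, eq_div_iff ht0.ne', ← pow_succ]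
    congr 1
    omega
  rw [← hT] at h1 ⊢
  rw [hU] at hy
  have h2 : (M * (T * (1 / t))) ^ 2 ≤ y ^ 2 := pow_le_pow_left₀ (by positivity) hy 2
  have h3 : (M * T) ^ 2 * (c * (((m : ℝ) ^ 1 / T + 1 / T) + 1) ^ 2)
      < (M * T) ^ 2 * (((1 / T : ℝ) + 1) ^ 2 + (1 / t) ^ 2) :=
    mul_lt_mul_of_pos_left h1 (by positivity)
  have e1 : (M * T) ^ 2 * (c * (((m : ℝ) ^ 1 / T + 1 / T) + 1) ^ 2)
      = c * (M * (m + 1 + T)) ^ 2 := by
    field_simp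
  have e2 : (M * T) ^ 2 * (((1 / T : ℝ) + 1) ^ 2 + (1 / t) ^ 2)
      = (M * (1 + T)) ^ 2 + (M * (T * (1 / t))) ^ 2 := by
    field_simp
  rw [e1, e2] at h3
  linarith

end Pool.Agent.Lib.MP_b30f32_co
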