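import Mathlib

/-! MP_b30f32_co: permanents of `J + t w w^*` (rank two positive semidefinite matrices). -/

set_option autoImplicit false

open Matrix Finset
open scoped ComplexOrder

set_option linter.unusedSectionVars false

namespace Pool.Agent.Lib.MP_b30f32_co

variable {ι : Type*} [Fintype ι] [DecidableEq ι]

/-- elementary symmetric sums -/
noncomputable def es (w : ι → ℂ) (k : ℕ) : ℂ :=
  ∑ S ∈ powersetCard k (univ : Finset ι), ∏ i ∈ S, w i

lemma es_comp (w : ι → ℂ) (k : ℕ) (σ : Equiv.Perm ι) : es (fun i => w (σ i)) k = es w k := by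
  unfold es
  refine Finset.sum_bij (fun S _ => S.map σ.toEmbedding) ?_ ?_ ?_ ?_
  · intro S hS
    rw [mem_powersetCard] at hS ⊢
    exact ⟨subset_univ _, by rw [card_map, hS.2]⟩
  · intro S _ T _ h
    exact Finset.map_injective _ h
  · intro S hS
    rw [mem_powersetCard] at hS
    refine ⟨S.map σ.symm.toEmbedding, ?_, ?_⟩
    · rw [mem_powersetCard]
      exact ⟨subset_univ _, by rw [card_map, hS.2]⟩
    · ext x
      simp
  · intro S _
    rw [prod_map]
    rfl

lemma es_smul (w : ι → ℂ) (k : ℕ) (c : ℂ) : es (fun i => c * w i) k = c ^ k * es w k := by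
  unfold es
  rw [mul_sum]
  refine sum_congr rfl fun S hS => ?_
  rw [mem_powersetCard] at hS
  rw [prod_mul_distrib, prod_const, hS.2]

lemma es_zero (w : ι → ℂ) : es w 0 = 1 := by
  simp [es]

lemma es_rot {w : ι → ℂ} {c : ℂ} {σ : Equiv.Perm ι} (h : ∀ i, w (σ i) = c * w i) {k : ℕ}
    (hc : c ^ k ≠ 1) : es w k = 0 := by
  have h1 := es_comp w k σ
  have h2 : (fun i => w (σ i)) = fun i => c * w i := funext h
  rw [h2, es_smul] at h1
  have h3 : (c ^ k - 1) * es w k = 0 := by
    rw [sub_mul, h1, one_mul, sub_self]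
  rcases mul_eq_zero.1 h3 with h4 | h4
  · exact absurd (sub_eq_zero.1 h4) hc
  · exact h4

lemma exists_perm {S T : Finset ι} (h : S.card = T.card) :
    ∃ π : Equiv.Perm ι, S.map π.toEmbedding = T := by
  classical
  have e : {x // x ∈ S} ≃ {x // x ∈ T} := Finset.equivOfCardEq h
  refine ⟨e.extendSubtype, ?_⟩
  have hsub : S.map e.extendSubtype.toEmbedding ⊆ T := by
    intro x hx
    rw [mem_map] at hx
    obtain ⟨y, hy, rfl⟩ := hx
    change e.extendSubtype y ∈ T
    rw [Equiv.extendSubtype_apply_of_mem e y hy]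
    exact (e ⟨y, hy⟩).2
  exact Finset.eq_of_subset_of_card_le hsub (by rw [card_map, h])

lemma sum_perm_prod (w : ι → ℂ) (S : Finset ι) :
    ∑ σ : Equiv.Perm ι, ∏ i ∈ S, w (σ i)
      = ((S.card.factorial * (Fintype.card ι - S.card).factorial : ℕ) : ℂ) * es w S.card := by
  have hle : S.card ≤ Fintype.card ι := card_le_univ S
  have h1 : ∀ T ∈ powersetCard S.card (univ : Finset ι),
      ∑ σ : Equiv.Perm ι, ∏ i ∈ T, w (σ i) = ∑ σ : Equiv.Perm ι, ∏ i ∈ S, w (σ i) := by
    intro T hT
    rw [mem_powersetCard] at hT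
    obtain ⟨π, hπ⟩ := exists_perm hT.2.symm
    rw [← hπ]
    rw [← Equiv.sum_comp (Equiv.mulRight π) (fun σ : Equiv.Perm ι => ∏ i ∈ S, w (σ i))]
    refine sum_congr rfl fun σ _ => ?_
    rw [prod_map]
    rfl
  have h2 : ∑ T ∈ powersetCard S.card (univ : Finset ι),
      ∑ σ : Equiv.Perm ι, ∏ i ∈ T, w (σ i)
      = ((Fintype.card ι).factorial : ℂ) * es w S.card := by
    rw [sum_comm]
    have : ∀ σ : Equiv.Perm ι, ∑ T ∈ powersetCard S.card (univ : Finset ι), ∏ i ∈ T, w (σ i)
        = es w S.card := fun σ => es_comp w S.card σ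
    simp only [this]
    rw [sum_const, card_univ, Fintype.card_perm, nsmul_eq_mul]
  rw [sum_congr rfl h1, sum_const, card_powersetCard, card_univ, nsmul_eq_mul,
    ← Nat.choose_mul_factorial_mul_factorial hle] at h2
  have hne : ((Fintype.card ι).choose S.card : ℂ) ≠ 0 := by
    exact_mod_cast (Nat.choose_pos hle).ne'
  apply mul_left_cancel₀ hne
  rw [h2]
  push_cast
  ring

/-- the matrix `J + t w w^*` -/
noncomputable def rk2 (t : ℝ) (w : ι → ℂ) : Matrix ι ι ℂ :=
  Matrix.of fun i j => 1 + (t : ℂ) * (w i * star (w j))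

lemma per_rk2 (t : ℝ) (w : ι → ℂ) : (rk2 t w).permanent =
    ((∑ k ∈ range (Fintype.card ι + 1),
      t ^ k * ((k.factorial * (Fintype.card ι - k).factorial : ℕ) : ℝ) * ‖es w k‖ ^ 2 : ℝ) : ℂ) := by
  unfold Matrix.permanent rk2
  simp only [of_apply]
  have h1 : ∀ σ : Equiv.Perm ι, ∏ i, (1 + (t : ℂ) * (w (σ i) * star (w i)))
      = ∑ S ∈ (univ : Finset ι).powerset, (t : ℂ) ^ S.card * (∏ i ∈ S, star (w i)) *
        ∏ i ∈ S, w (σ i) := by
    intro σ
    rw [prod_one_add]
    refine sum_congr rfl fun S _ => ?_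
    rw [prod_mul_distrib, prod_const, prod_mul_distrib]
    ring
  simp only [h1]
  rw [sum_comm]
  simp only [← mul_sum, sum_perm_prod]
  rw [sum_powerset, card_univ]
  push_cast
  refine sum_congr rfl fun k _ => ?_
  have h2 : ∀ S ∈ powersetCard k (univ : Finset ι),
      (t : ℂ) ^ S.card * (∏ i ∈ S, star (w i)) *
        (((S.card.factorial : ℂ) * ((Fintype.card ι - S.card).factorial : ℂ)) * es w S.card)
      = (t : ℂ) ^ k * ((k.factorial : ℂ) * ((Fintype.card ι - k).factorial : ℂ)) * es w k *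
        ∏ i ∈ S, star (w i) := by
    intro S hS
    rw [mem_powersetCard] at hS
    rw [hS.2]
    ring
  rw [sum_congr rfl h2, ← mul_sum]
  have h3 : ∑ S ∈ powersetCard k (univ : Finset ι), ∏ i ∈ S, star (w i) = star (es w k) := by
    unfold es
    rw [star_sum]
    refine sum_congr rfl fun S _ => ?_
    rw [star_prod]
  rw [h3]
  have h4 : es w k * star (es w k) = ((‖es w k‖ : ℝ) : ℂ) ^ 2 := by
    rw [← Complex.ofReal_pow, ← Complex.normSq_eq_norm_sq, ← Complex.mul_conj]
    rfl
  rw [mul_assoc _ (es w k), h4]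

lemma psd_rk2 {t : ℝ} (ht : 0 ≤ t) (w : ι → ℂ) : (rk2 t w).PosSemidef := by
  have h1 : (Matrix.vecMulVec (fun _ : ι => (1 : ℂ)) (star fun _ : ι => (1 : ℂ))).PosSemidef :=
    Matrix.posSemidef_vecMulVec_self_star _
  have h2 : (Matrix.vecMulVec w (star w)).PosSemidef := Matrix.posSemidef_vecMulVec_self_star _
  have h3 : rk2 t w = Matrix.vecMulVec (fun _ : ι => (1 : ℂ)) (star fun _ : ι => (1 : ℂ))
      + (t : ℂ) • Matrix.vecMulVec w (star w) := by
    ext i j
    simp [rk2, Matrix.vecMulVec_apply]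
  rw [h3]
  exact h1.add (h2.smul (by exact_mod_cast ht))

/-- the permanent of a Hermitian matrix is real -/
lemma per_herm {A : Matrix ι ι ℂ} (hA : A.IsHermitian) : A.permanent = (A.permanent.re : ℂ) := by
  have h : star A.permanent = A.permanent := by
    conv_rhs => rw [← Matrix.permanent_transpose]
    unfold Matrix.permanent
    rw [star_sum]
    refine sum_congr rfl fun σ _ => ?_
    rw [star_prod]
    refine prod_congr rfl fun i _ => ?_
    rw [Matrix.transpose_apply, hA.apply]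
  exact (Complex.conj_eq_iff_re.1 h).symm

end Pool.Agent.Lib.MP_b30f32_co
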