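import Pool.Agent.Lib.MP_b30f32_co.Family

/-! MP_b30f32_co: the inequality for matrices of size at most `3`. -/

set_option autoImplicit false
set_option linter.unusedSimpArgs false

open Matrix Finset
open scoped ComplexOrder

namespace Pool.Agent.Lib.MP_b30f32_co

/-- the real inequality behind size 3 -/
lemma real3 {a b c P Q F r x y : ℝ} (hb : 0 ≤ b) (hc : 0 ≤ c) (hP : 0 ≤ P) (hQ : 0 ≤ Q)
    (hF : 0 ≤ F) (ha : 0 ≤ a) (hFbc : F ≤ b * c) (hr : r ^ 2 ≤ P * Q * F)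
    (hdet : 0 ≤ a * (b * c) - a * F - b * Q - c * P - 2 * r)
    (hx : x = a * (b * c + F)) (hy : y = P * c + Q * b) :
    x ^ 2 + y ^ 2 ≤ (x + y - 2 * r) ^ 2 := by
  have hx0 : 0 ≤ x := by rw [hx]; positivity
  have hy0 : 0 ≤ y := by rw [hy]; positivity
  rcases le_or_gt r 0 with h0 | h0
  · nlinarith [mul_nonneg hx0 hy0, mul_nonneg hx0 (neg_nonneg.2 h0),
      mul_nonneg hy0 (neg_nonneg.2 h0)]
  · have hT : 0 ≤ x * y - 2 * r * (x + y) + 2 * r ^ 2 := by
      obtain ⟨β, hβ⟩ : ∃ β, β = b * c := ⟨_, rfl⟩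
      have hβ0 : 0 ≤ β := by rw [hβ]; positivity
      obtain ⟨D, hD⟩ : ∃ D, D = β - F := ⟨_, rfl⟩
      obtain ⟨u, hu⟩ : ∃ u, u = a * D := ⟨_, rfl⟩
      have hD0 : 0 ≤ D := by rw [hD, hβ]; linarith
      have hu1 : y + 2 * r ≤ u := by
        rw [hu, hD, hβ, hy]
        nlinarith
      have hyy : 4 * β * (P * Q) ≤ y ^ 2 := by
        rw [hβ, hy]
        nlinarith [sq_nonneg (P * c - Q * b)]
      have hPQ : 0 ≤ P * Q := mul_nonneg hP hQ
      have hFy : 4 * r ^ 2 * β ≤ F * y ^ 2 := by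
        have h1 : 4 * r ^ 2 * β ≤ 4 * (P * Q * F) * β := by
          have := mul_le_mul_of_nonneg_right hr hβ0
          linarith
        have h2 := mul_le_mul_of_nonneg_left hyy hF
        linarith
      have hFβ : F ≤ β := by rw [hβ]; exact hFbc
      have hy2r : 2 * r ≤ y := by
        have h1 : (2 * r) ^ 2 ≤ y ^ 2 := by
          have h2 : P * Q * F ≤ P * Q * β := mul_le_mul_of_nonneg_left hFβ hPQ
          nlinarith
        exact (abs_le_of_sq_le_sq' h1 hy0).2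
      have hDpos : 0 < D := by
        rcases hD0.lt_or_eq with h | h
        · exact h
        · exfalso
          rw [← h, mul_zero] at hu
          linarith
      have hy1 : 0 < y := by linarith
      have hyr : 0 ≤ y - 2 * r := by linarith
      have hxe : x = u + 2 * (a * F) := by
        rw [hx, hu, hD, hβ]
        ring
      have key : 0 ≤ (x * y - 2 * r * (x + y) + 2 * r ^ 2) * D := by
        have e1 : (x * y - 2 * r * (x + y) + 2 * r ^ 2) * D
            = u * (D + 2 * F) * (y - 2 * r) - 2 * r * D * (y - r) := by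
          rw [hxe, hu]
          ring
        have h1 : (y + 2 * r) * ((D + 2 * F) * (y - 2 * r)) ≤ u * ((D + 2 * F) * (y - 2 * r)) :=
          mul_le_mul_of_nonneg_right hu1 (by positivity)
        have h2 : 0 ≤ β * (y ^ 2 - 2 * r * y - 2 * r ^ 2) + F * (y ^ 2 + 2 * r * y - 6 * r ^ 2) := by
          have h3 : 0 ≤ y ^ 2 + 2 * r * y - 6 * r ^ 2 := by nlinarith
          have h4 := mul_le_mul_of_nonneg_right hFy h3
          have h5 : 0 ≤ β * ((y - 2 * r) * (y ^ 3 + 2 * r ^ 2 * y + 12 * r ^ 3)) := by positivity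
          have h6 : 0 ≤ y ^ 2 * (β * (y ^ 2 - 2 * r * y - 2 * r ^ 2) +
              F * (y ^ 2 + 2 * r * y - 6 * r ^ 2)) := by
            nlinarith
          exact nonneg_of_mul_nonneg_right h6 (by positivity)
        have h7 : (y + 2 * r) * ((D + 2 * F) * (y - 2 * r)) - 2 * r * D * (y - r)
            = β * (y ^ 2 - 2 * r * y - 2 * r ^ 2) + F * (y ^ 2 + 2 * r * y - 6 * r ^ 2) := by
          rw [hD]
          ring
        rw [e1]
        linarith
      exact nonneg_of_mul_nonneg_left key hDpos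
    nlinarith

lemma per_two (M : Matrix (Fin 2) (Fin 2) ℂ) :
    M.permanent = M 0 0 * M 1 1 + M 1 0 * M 0 1 := by
  unfold Matrix.permanent
  rw [← Equiv.sum_comp Equiv.Perm.decomposeFin.symm]
  simp [Fintype.sum_prod_type, Fin.sum_univ_succ, Fin.prod_univ_succ]

lemma per_three (M : Matrix (Fin 3) (Fin 3) ℂ) :
    M.permanent = M 0 0 * M 1 1 * M 2 2 + M 0 0 * M 2 1 * M 1 2 + M 1 0 * M 0 1 * M 2 2
      + M 2 0 * M 1 1 * M 0 2 + M 1 0 * M 2 1 * M 0 2 + M 2 0 * M 0 1 * M 1 2 := by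
  unfold Matrix.permanent
  rw [← Equiv.sum_comp Equiv.Perm.decomposeFin.symm]
  rw [Fintype.sum_prod_type]
  simp only [← Equiv.sum_comp (Equiv.Perm.decomposeFin (n := 1)).symm]
  simp [Fintype.sum_prod_type, Fin.sum_univ_succ, Fin.prod_univ_succ]
  have h1 : Equiv.swap (0 : Fin 3) 1 2 = 2 := by decide
  have h2 : Equiv.swap (0 : Fin 3) 2 1 = 1 := by decide
  rw [h1, h2]
  ring

lemma diag_re {ι : Type*} {A : Matrix ι ι ℂ} (hA : A.IsHermitian) (i : ι) :
    A i i = ((A i i).re : ℂ) := (Complex.conj_eq_iff_re.1 (hA.apply i i)).symm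

lemma small_three {A : Matrix (Fin 3) (Fin 3) ℂ} (hA : A.PosSemidef) {x y z : ℝ}
    (hv : Vals A x y z) : x ^ 2 + y ^ 2 ≤ z ^ 2 := by
  have hH := hA.isHermitian
  obtain ⟨a, ha⟩ : ∃ a : ℝ, A 0 0 = a := ⟨_, diag_re hH 0⟩
  obtain ⟨b, hb⟩ : ∃ b : ℝ, A 1 1 = b := ⟨_, diag_re hH 1⟩
  obtain ⟨c, hc⟩ : ∃ c : ℝ, A 2 2 = c := ⟨_, diag_re hH 2⟩
  obtain ⟨p, hp⟩ : ∃ p : ℂ, A 0 1 = p := ⟨_, rfl⟩
  obtain ⟨q, hq⟩ : ∃ q : ℂ, A 0 2 = q := ⟨_, rfl⟩
  obtain ⟨f, hf⟩ : ∃ f : ℂ, A 1 2 = f := ⟨_, rfl⟩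
  have hp' : A 1 0 = star p := by rw [← hp]; exact (hH.apply 1 0).symm
  have hq' : A 2 0 = star q := by rw [← hq]; exact (hH.apply 2 0).symm
  have hf' : A 2 1 = star f := by rw [← hf]; exact (hH.apply 2 1).symm
  have ha0 : 0 ≤ a := by
    have := hA.diag_nonneg (i := 0)
    rw [ha] at this
    exact_mod_cast this
  have hb0 : 0 ≤ b := by
    have := hA.diag_nonneg (i := 1)
    rw [hb] at this
    exact_mod_cast this
  have hc0 : 0 ≤ c := by
    have := hA.diag_nonneg (i := 2)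
    rw [hc] at this
    exact_mod_cast this
  obtain ⟨h1, h2, h3⟩ := hv
  -- the value x
  have hx : x = a * (b * c + ‖f‖ ^ 2) := by
    rw [per_two] at h1
    have e : A 0 0 * ((A.submatrix Fin.succ Fin.succ) 0 0 * (A.submatrix Fin.succ Fin.succ) 1 1 +
        (A.submatrix Fin.succ Fin.succ) 1 0 * (A.submatrix Fin.succ Fin.succ) 0 1)
        = A 0 0 * (A 1 1 * A 2 2 + A 2 1 * A 1 2) := rfl
    rw [e, ha, hb, hc, hf, hf'] at h1
    have h := congrArg Complex.re h1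
    simp [Complex.mul_re, Complex.mul_im] at h
    rw [Complex.sq_norm, Complex.normSq_apply]
    linarith
  have hk0 : (A.submatrix (fun j : {j : Fin 3 // j ≠ 0 ∧ j ≠ Fin.succ (0 : Fin 2)} => (j : Fin 3))
      (fun j : {j : Fin 3 // j ≠ 0 ∧ j ≠ Fin.succ (0 : Fin 2)} => (j : Fin 3))).permanent
      = A 2 2 := by
    have hcard : Fintype.card {j : Fin 3 // j ≠ 0 ∧ j ≠ Fin.succ (0 : Fin 2)} = 1 := by decide
    rw [Matrix.permanent_eq_elem_of_card_eq_one hcard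
      (⟨2, by decide⟩ : {j : Fin 3 // j ≠ 0 ∧ j ≠ Fin.succ (0 : Fin 2)})]
    rfl
  have hk1 : (A.submatrix (fun j : {j : Fin 3 // j ≠ 0 ∧ j ≠ Fin.succ (1 : Fin 2)} => (j : Fin 3))
      (fun j : {j : Fin 3 // j ≠ 0 ∧ j ≠ Fin.succ (1 : Fin 2)} => (j : Fin 3))).permanent
      = A 1 1 := by
    have hcard : Fintype.card {j : Fin 3 // j ≠ 0 ∧ j ≠ Fin.succ (1 : Fin 2)} = 1 := by decide
    rw [Matrix.permanent_eq_elem_of_card_eq_one hcard
      (⟨1, by decide⟩ : {j : Fin 3 // j ≠ 0 ∧ j ≠ Fin.succ (1 : Fin 2)})]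
    rfl
  have hy : y = ‖p‖ ^ 2 * c + ‖q‖ ^ 2 * b := by
    rw [Fin.sum_univ_two, hk0, hk1] at h2
    have e1 : A 0 (Fin.succ (0 : Fin 2)) = p := hp
    have e2 : A 0 (Fin.succ (1 : Fin 2)) = q := hq
    rw [e1, e2, hb, hc] at h2
    exact_mod_cast h2.symm
  have hz : z = x + y - 2 * (-(p * f * star q).re) := by
    rw [per_three, ha, hb, hc, hp, hq, hf, hp', hq', hf'] at h3
    have h := congrArg Complex.re h3
    rw [hx, hy]
    simp [Complex.mul_re, Complex.mul_im] at h ⊢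
    rw [Complex.sq_norm, Complex.normSq_apply, Complex.sq_norm, Complex.normSq_apply,
      Complex.sq_norm, Complex.normSq_apply]
    linarith
  have hr : (-(p * f * star q).re) ^ 2 ≤ ‖p‖ ^ 2 * ‖q‖ ^ 2 * ‖f‖ ^ 2 := by
    have h := Complex.abs_re_le_norm (p * f * star q)
    rw [norm_mul, norm_mul, norm_star] at h
    have h' := pow_le_pow_left₀ (abs_nonneg _) h 2
    rw [sq_abs] at h'
    rw [neg_sq]
    refine h'.trans (le_of_eq ?_)
    ring
  have hdet : 0 ≤ a * (b * c) - a * ‖f‖ ^ 2 - b * ‖q‖ ^ 2 - c * ‖p‖ ^ 2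
      - 2 * (-(p * f * star q).re) := by
    have h := hA.det_nonneg
    rw [Matrix.det_fin_three, ha, hb, hc, hp, hq, hf, hp', hq', hf'] at h
    have h' := (Complex.le_def.1 h).1
    simp [Complex.mul_re, Complex.mul_im] at h' ⊢
    rw [Complex.sq_norm, Complex.normSq_apply, Complex.sq_norm, Complex.normSq_apply,
      Complex.sq_norm, Complex.normSq_apply]
    linarith
  have hbc : ‖f‖ ^ 2 ≤ b * c := by
    have h := (hA.submatrix ![(1 : Fin 3), 2]).det_nonneg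
    rw [Matrix.det_fin_two] at h
    have e : (A.submatrix ![(1 : Fin 3), 2] ![1, 2]) 0 0 * (A.submatrix ![(1 : Fin 3), 2] ![1, 2]) 1 1
        - (A.submatrix ![(1 : Fin 3), 2] ![1, 2]) 0 1 * (A.submatrix ![(1 : Fin 3), 2] ![1, 2]) 1 0
        = A 1 1 * A 2 2 - A 1 2 * A 2 1 := rfl
    rw [e, hb, hc, hf, hf'] at h
    have h' := (Complex.le_def.1 h).1
    simp [Complex.mul_re, Complex.mul_im] at h'
    rw [Complex.sq_norm, Complex.normSq_apply]
    linarith
  rw [hz]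
  exact real3 hb0 hc0 (by positivity) (by positivity) (by positivity) ha0 hbc hr hdet hx hy

lemma small_two {A : Matrix (Fin 2) (Fin 2) ℂ} (hA : A.PosSemidef) {x y z : ℝ}
    (hv : Vals A x y z) : x ^ 2 + y ^ 2 ≤ z ^ 2 := by
  have hH := hA.isHermitian
  obtain ⟨a, ha⟩ : ∃ a : ℝ, A 0 0 = a := ⟨_, diag_re hH 0⟩
  obtain ⟨b, hb⟩ : ∃ b : ℝ, A 1 1 = b := ⟨_, diag_re hH 1⟩
  obtain ⟨p, hp⟩ : ∃ p : ℂ, A 0 1 = p := ⟨_, rfl⟩
  have hp' : A 1 0 = star p := by rw [← hp]; exact (hH.apply 1 0).symm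
  have ha0 : 0 ≤ a := by
    have := hA.diag_nonneg (i := 0)
    rw [ha] at this
    exact_mod_cast this
  have hb0 : 0 ≤ b := by
    have := hA.diag_nonneg (i := 1)
    rw [hb] at this
    exact_mod_cast this
  obtain ⟨h1, h2, h3⟩ := hv
  have hx : x = a * b := by
    rw [Matrix.permanent_unique] at h1
    have e : A 0 0 * (A.submatrix Fin.succ Fin.succ) default default = A 0 0 * A 1 1 := rfl
    rw [e, ha, hb] at h1
    exact_mod_cast h1.symm
  have hy : y = ‖p‖ ^ 2 := by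
    have hk : (A.submatrix (fun j : {j : Fin 2 // j ≠ 0 ∧ j ≠ Fin.succ (0 : Fin 1)} => (j : Fin 2))
        (fun j : {j : Fin 2 // j ≠ 0 ∧ j ≠ Fin.succ (0 : Fin 1)} => (j : Fin 2))).permanent = 1 :=
      Matrix.permanent_eq_one_of_card_eq_zero (by decide)
    rw [Fin.sum_univ_one, hk] at h2
    have e1 : A 0 (Fin.succ (0 : Fin 1)) = p := hp
    rw [e1, mul_one] at h2
    exact_mod_cast h2.symm
  have hz : z = x + y := by
    rw [per_two, ha, hb, hp, hp'] at h3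
    have h := congrArg Complex.re h3
    rw [hx, hy]
    simp [Complex.mul_re, Complex.mul_im] at h ⊢
    rw [Complex.sq_norm, Complex.normSq_apply]
    linarith
  have hx0 : 0 ≤ x := by rw [hx]; positivity
  have hy0 : 0 ≤ y := by rw [hy]; positivity
  rw [hz]
  nlinarith [mul_nonneg hx0 hy0]

lemma small_one {A : Matrix (Fin 1) (Fin 1) ℂ} {x y z : ℝ}
    (hv : Vals A x y z) : x ^ 2 + y ^ 2 ≤ z ^ 2 := by
  obtain ⟨h1, h2, h3⟩ := hv
  rw [Matrix.permanent_isEmpty, mul_one] at h1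
  rw [Fin.sum_univ_zero] at h2
  rw [Matrix.permanent_eq_elem_of_subsingleton A 0] at h3
  have hy : y = 0 := by exact_mod_cast h2.symm
  have hxz : x = z := by
    have : (x : ℂ) = z := by
      rw [← h1, ← h3]
    exact_mod_cast this
  rw [hy, hxz]
  norm_num

end Pool.Agent.Lib.MP_b30f32_co
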